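import Pool.Agent.R563.RRam.Gen4

set_option autoImplicit false

/-!
# MP_2781e4_lc, Q1: every `p > 0` is achievable with `T = n²`

In the cost model of the question (number of operations in exact real arithmetic) there is one
deterministic algorithm which solves every invertible `n × n` system `A x = b` to relative accuracy
`ε` and which, for every `p > 0`, uses at most `C n² κ_p(A) (1 + log (n / ε))³` operations, where
`κ_p` is the `p`-averaged condition number and `C` depends on `p` only. Hence `p*(n²) = 0`.
-/

namespace Pool.Agent.Results.MP_2781e4_lc.EveryPositiveExponent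

/-! `nv` is the Euclidean norm, `avgCond p A` the `p`-averaged condition number. -/

open Matrix Pool.Agent.R563.RRam

theorem result :
    ∃ (solve : ℕ × List (List ℝ) × List ℝ × ℝ → List ℝ)
      (cost : ℕ × List (List ℝ) × List ℝ × ℝ → ℕ∞),
      -- `solve` is computed by an algorithm with `cost` operations
      Computes solve cost ∧
      ∀ p : ℝ, 0 < p → ∃ C : ℝ,
        ∀ (n : ℕ) (A : Matrix (Fin n) (Fin n) ℝ) (b : Fin n → ℝ) (ε : ℝ),
          1 ≤ n → A.det ≠ 0 → 0 < ε → ε < 1 →
          -- the output has relative accuracy `ε`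
          (∃ x : Fin n → ℝ,
            solve (n, List.ofFn (fun i => List.ofFn (A i)), List.ofFn b, ε) = List.ofFn x ∧
            nv (x - A⁻¹ *ᵥ b) ≤ ε * nv (A⁻¹ *ᵥ b)) ∧
          -- the number of operations is finite and at most `C n² κ_p(A) (1 + log (n / ε))³`
          ∃ k : ℕ, cost (n, List.ofFn (fun i => List.ofFn (A i)), List.ofFn b, ε) = k ∧
            (k : ℝ) ≤ C * (n : ℝ) ^ 2 * avgCond p A * (1 + Real.log (n / ε)) ^ 3 := by
  obtain ⟨solve, cost, h1, h2⟩ := gen_main
  refine ⟨solve, cost, h1, fun p hp => ?_⟩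
  obtain ⟨C, hC⟩ := h2 p hp
  exact ⟨C, fun n A b ε hn hA hε hε1 => hC n A b ε hn hA hε hε1⟩

end Pool.Agent.Results.MP_2781e4_lc.EveryPositiveExponent
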